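import Mathlib
import Pool.Agent.W16.TR.Emb
import Pool.Agent.W223.AK.Main

/-!
# The exceptional set in the abc conjecture over the integers of `ℚ(√5)`

Up to units, the coprime triples `a + b + c = 0` of integers of `ℚ(√5)` with `abc ≠ 0`, height
`H ≤ X` and radical at most `κ H` number `O(X ^ (20 / 37 + ε))`.
-/

set_option autoImplicit false

namespace Pool.Agent.Results.MP_2a5a28_nt.ExceptionalSet

open NumberField IsDedekindDomain

variable {K : Type} [Field K] [NumberField K]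

/-- the triples in lowest terms with `a + b + c = 0` and `abc ≠ 0` -/
structure Triple (t : 𝓞 K × 𝓞 K × 𝓞 K) : Prop where
  sum : t.1 + t.2.1 + t.2.2 = 0
  ne : t.1 * t.2.1 * t.2.2 ≠ 0
  cop : Ideal.span {t.1, t.2.1, t.2.2} = (⊤ : Ideal (𝓞 K))

/-- the height `H(a, b, c)`: the product over the field embeddings `φ : K → ℂ` (two real ones when
`K = ℚ(√5)`) of `max (|φ a|, |φ b|, |φ c|)` -/
noncomputable def height (t : 𝓞 K × 𝓞 K × 𝓞 K) : ℝ :=
  ∏ φ : K →+* ℂ, max ‖φ t.1‖ (max ‖φ t.2.1‖ ‖φ t.2.2‖)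

/-- the radical: the product of the norms of the prime ideals dividing `abc` -/
noncomputable def rad (t : 𝓞 K × 𝓞 K × 𝓞 K) : ℝ :=
  ∏ᶠ (P : HeightOneSpectrum (𝓞 K)) (_ : t.1 * t.2.1 * t.2.2 ∈ P.asIdeal),
    (Ideal.absNorm P.asIdeal : ℝ)

/-- Let `K = ℚ(√5)` and `𝓞 K = ℤ[(1 + √5) / 2]` its ring of integers. For all `κ` and `ε > 0` there
is `C` such that, for `X ≥ 1`, any set of triples `a + b + c = 0` in lowest terms, no two of them
differing by a unit, with height `H ≤ X` and `rad ≤ κ H`, has at most `C X ^ (20 / 37 + ε)`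
elements. -/
theorem result : ∀ (K : Type) [Field K] [NumberField K], Module.finrank ℚ K = 2 →
    (∃ s : K, s ^ 2 = 5) → ∀ κ ε : ℝ, 0 < ε → ∃ C : ℝ, ∀ X : ℝ, 1 ≤ X →
      ∀ E : Finset (𝓞 K × 𝓞 K × 𝓞 K),
        (∀ t ∈ E, Triple t ∧ height t ≤ X ∧ rad t ≤ κ * height t) →
        (∀ t ∈ E, ∀ s ∈ E, ∀ u : (𝓞 K)ˣ, s = (u * t.1, u * t.2.1, u * t.2.2) → s = t) →
        (E.card : ℝ) ≤ C * X ^ (20 / 37 + ε : ℝ) := by
  intro K _ _ _ _ κ ε hε
  obtain ⟨D, _, h⟩ := Pool.Agent.W16.TR.cop_count' (Pool.Agent.W223.AK.main K) κ ε hε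
  refine ⟨D, fun X hX E hE hun => h X E hX ?_ ?_⟩
  · intro t ht
    obtain ⟨h1, h2, h3⟩ := hE t ht
    exact ⟨h1.cop, h1.sum, h1.ne, h2, h3⟩
  · intro t ht s hs u h0 h1 h2
    exact (hun t ht s hs u (Prod.ext h0 (Prod.ext h1 h2))).symm

end Pool.Agent.Results.MP_2a5a28_nt.ExceptionalSet
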